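import Mathlib
import Pool.Agent.H.MP_bc03d6_nt.A

set_option autoImplicit false

namespace Pool.Agent.Results.MP_bc03d6_nt.Yes

open Filter MeasureTheory

theorem result (n : ℕ) (hn : 1 ≤ n) :
    ∀ᵐ ω ∂Measure.infinitePi fun _ : ℕ => (volume : Measure (Fin n → unitInterval)),
      ∀ ψ : Fin n → ℕ → ℝ, (∀ i, Antitone (ψ i)) → (∀ i j, 0 < ψ i j) → ¬Summable (fun j => ∏ i, ψ i j) →
        volume {x : Fin n → unitInterval | ∃ᶠ j in atTop, ∀ i, |(x i : ℝ) - ω j i| < ψ i j} = 1 :=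
  Pool.Agent.H.MP_bc03d6_nt.main hn

end Pool.Agent.Results.MP_bc03d6_nt.Yes
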